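import Mathlib
import Pool.Agent.V1181.DBb
set_option autoImplicit false

/-!
# Montgomery's `ℓ^q` conjecture: independent twists of the blocks of arbitrary coefficients

Let `b_n`, `N ≤ n ≤ 2N`, be arbitrary coefficients of modulus at most one and let `J_1, …, J_m` be
disjoint sets of integers of `[N, 2N]` with at most `M` elements. We replace `b_n` by `b_n n^{i y_j}`
for `n` in `J_j` (and by `0` outside of all blocks), where the `y_j` are independent random numbers
with a common law which lives on `[-B N, B N]` and has a density at most `B / N`, for instance the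
uniform law of `[0, N]`; so the part of the Dirichlet polynomial on `J_j` is translated by `y_j`. Let
`D_y(t)` be the new polynomial. We prove that the mean value of `|D_y(t)|^q`, `q ≥ 2`, is at most
`C (N^(q/2) + N M^(q-2))` for *every* real `t`, with a constant which depends only on `q` and `B`. For
`M ≤ A √N` this gives the bound `C T N^(q/2)` for the mean value of `∑_{1 ≤ t ≤ T} |D_y(t)|^q`, for
every `T`, and it follows that the probability that `|D_y(t)| ≤ C N^(1/2+ε)` for all `t` in a given set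
of at most `N^A` real numbers is at least `1 - N^(-K)`.

Proof: Rosenthal's inequality for each `t`, and a mean value theorem for Dirichlet polynomials.
-/

namespace Pool.Agent.Results.MP_2a1f0e_nt.RandomTwists

open MeasureTheory Finset Complex
open scoped ENNReal

/-- `D(t) = ∑_{N ≤ n ≤ 2N} b_n n^{it}` -/
noncomputable def D (N : ℕ) (b : ℕ → ℂ) (t : ℝ) : ℂ :=
  ∑ n ∈ Icc N (2 * N), b n * cexp (I * (t : ℂ) * (Real.log (n : ℝ) : ℂ))

open Classical in
/-- the coefficient `b_n n^{i y_j}` if `n` is in the block `J_j`, and `0` outside of the blocks (the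
blocks are disjoint) -/
noncomputable def twist {m : ℕ} (J : Fin m → Finset ℕ) (b : ℕ → ℂ) (y : Fin m → ℝ) (n : ℕ) : ℂ :=
  ∑ j, if n ∈ J j then b n * cexp (I * (y j : ℂ) * (Real.log (n : ℝ) : ℂ)) else 0

/-- disjoint sets of integers of `[N, 2N]` with at most `M` elements -/
def Blocks {m : ℕ} (N : ℕ) (M : ℝ) (J : Fin m → Finset ℕ) : Prop :=
  (∀ j, J j ⊆ Icc N (2 * N)) ∧ (∀ i j, i ≠ j → Disjoint (J i) (J j)) ∧
    ∀ j, ((J j).card : ℝ) ≤ M

/-- a probability measure on `[-B N, B N]` with density at most `B / N` -/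
def Spread (B : ℝ) (N : ℕ) (ρ : Measure ℝ) : Prop :=
  IsProbabilityMeasure ρ ∧ ρ (Set.Icc (-(B * N)) (B * N))ᶜ = 0 ∧
    ρ ≤ ENNReal.ofReal (B / N) • (volume : Measure ℝ)

theorem D_twist {m N : ℕ} {M : ℝ} {J : Fin m → Finset ℕ} (hJ : Blocks N M J) (b : ℕ → ℂ)
    (y : Fin m → ℝ) (t : ℝ) :
    D N (twist J b y) t = ∑ j, ∑ n ∈ J j, b n * Pool.Agent.V1181.DB.ph (t + y j) n := by
  classical
  unfold D twist
  simp only [Finset.sum_mul]
  rw [Finset.sum_comm]
  refine Finset.sum_congr rfl fun j _ => ?_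
  have h1 : ∀ n, (if n ∈ J j then b n * cexp (I * (y j : ℂ) * (Real.log (n : ℝ) : ℂ)) else 0) *
      cexp (I * (t : ℂ) * (Real.log (n : ℝ) : ℂ)) =
      if n ∈ J j then b n * Pool.Agent.V1181.DB.ph (t + y j) n else 0 := by
    intro n
    split_ifs
    · rw [Pool.Agent.V1181.DB.ph_add]
      unfold Pool.Agent.V1181.DB.ph
      ring
    · rw [zero_mul]
  simp only [h1]
  rw [Finset.sum_ite_mem, Finset.inter_eq_right.2 (hJ.1 j)]

theorem meas {m N : ℕ} {M : ℝ} {J : Fin m → Finset ℕ} (hJ : Blocks N M J) (b : ℕ → ℂ) (t : ℝ) :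
    Measurable fun y : Fin m → ℝ => D N (twist J b y) t := by
  simp only [D_twist hJ]
  apply Continuous.measurable
  refine continuous_finsetSum _ fun j _ => ?_
  refine continuous_finsetSum _ fun n _ => ?_
  have h1 : Continuous fun y : Fin m → ℝ => t + y j := continuous_const.add (continuous_apply j)
  have h2 := Continuous.comp (Pool.Agent.V1181.DB.ph_cont n) h1
  exact continuous_const.mul h2

theorem moments (q B : ℝ) (hq : 2 ≤ q) :
    ∃ C : ℝ, 0 < C ∧ ∀ (N m : ℕ) (M : ℝ) (J : Fin m → Finset ℕ) (ρ : Measure ℝ) (b : ℕ → ℂ),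
      1 ≤ N → 0 ≤ M → Blocks N M J → Spread B N ρ → (∀ n, ‖b n‖ ≤ 1) → ∀ t : ℝ,
        ∫⁻ y, ‖D N (twist J b y) t‖ₑ ^ q ∂(Measure.pi fun _ => ρ) ≤
          ENNReal.ofReal (C * ((N : ℝ) ^ (q / 2) + N * M ^ (q - 2))) := by
  obtain ⟨C, hC0, hC⟩ := Pool.Agent.V1181.DB.moment (max B 1) q (le_max_right _ _) hq
  refine ⟨C, hC0, ?_⟩
  intro N m M J ρ b hN hM hJ hρ hb t
  obtain ⟨hρ1, hρ2, hρ3⟩ := hρ
  have hN0 : (0 : ℝ) < N := by exact_mod_cast (by omega : 0 < N)
  simp only [D_twist hJ]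
  refine hC N hN ρ ?_ ?_ m J hJ.1 hJ.2.1 M hM hJ.2.2 b hb t
  · refine measure_mono_null (Set.compl_subset_compl.2 ?_) hρ2
    have h1 : B * N ≤ max B 1 * N := mul_le_mul_of_nonneg_right (le_max_left _ _) hN0.le
    exact Set.Icc_subset_Icc (by linarith) h1
  · refine hρ3.trans ?_
    intro s
    rw [Measure.smul_apply, Measure.smul_apply, smul_eq_mul, smul_eq_mul]
    refine mul_le_mul_left ?_ _
    apply ENNReal.ofReal_le_ofReal
    exact div_le_div_of_nonneg_right (le_max_left _ _) hN0.le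

/-- 1. Moments at every point of a finite set `W` of real numbers, for example `W = {1, …, T}`.
2. If the blocks have at most `A √N` elements then all the values at the points of `W` are at most
`C N^(1/2+ε)` with probability at least `1 - N^(-K)`, for every set `W` of at most `N^A` real numbers. -/
theorem result :
    (∀ q B : ℝ, 2 ≤ q → ∃ C : ℝ, 0 < C ∧
      ∀ (N m : ℕ) (M : ℝ) (J : Fin m → Finset ℕ) (ρ : Measure ℝ) (b : ℕ → ℂ) (W : Finset ℝ),
      1 ≤ N → 0 ≤ M → Blocks N M J → Spread B N ρ → (∀ n, ‖b n‖ ≤ 1) →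
        ∫⁻ y, (∑ t ∈ W, ‖D N (twist J b y) t‖ₑ ^ q) ∂(Measure.pi fun _ => ρ) ≤
          ENNReal.ofReal (C * W.card * ((N : ℝ) ^ (q / 2) + N * M ^ (q - 2)))) ∧
    ∀ ε A B K : ℝ, 0 < ε → 0 < A → 0 < K → ∃ C : ℝ, 0 < C ∧
      ∀ (N m : ℕ) (J : Fin m → Finset ℕ) (ρ : Measure ℝ) (b : ℕ → ℂ) (W : Finset ℝ),
      1 ≤ N → (W.card : ℝ) ≤ (N : ℝ) ^ A → Blocks N (A * Real.sqrt N) J → Spread B N ρ →
      (∀ n, ‖b n‖ ≤ 1) →
        (Measure.pi fun _ => ρ) {y | ∃ t ∈ W,
          C * (N : ℝ) ^ (1 / 2 + ε) < ‖D N (twist J b y) t‖} ≤ ENNReal.ofReal ((N : ℝ) ^ (-K)) := by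
  constructor
  · intro q B hq
    obtain ⟨C, hC0, hC⟩ := moments q B hq
    refine ⟨C, hC0, ?_⟩
    intro N m M J ρ b W hN hM hJ hρ hb
    have h1 := hC N m M J ρ b hN hM hJ hρ hb
    have hsw := lintegral_finsetSum (μ := Measure.pi fun _ : Fin m => ρ) W
      (f := fun (t : ℝ) (y : Fin m → ℝ) => ‖D N (twist J b y) t‖ₑ ^ q)
      fun t _ => (meas hJ b t).enorm.pow_const q
    refine hsw.le.trans ?_
    calc ∑ t ∈ W, ∫⁻ y, ‖D N (twist J b y) t‖ₑ ^ q ∂(Measure.pi fun _ => ρ)
        ≤ ∑ _t ∈ W, ENNReal.ofReal (C * ((N : ℝ) ^ (q / 2) + N * M ^ (q - 2))) :=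
          Finset.sum_le_sum fun t _ => h1 t
      _ = ENNReal.ofReal (C * W.card * ((N : ℝ) ^ (q / 2) + N * M ^ (q - 2))) := by
          rw [Finset.sum_const, nsmul_eq_mul,
            ← ENNReal.ofReal_natCast, ← ENNReal.ofReal_mul (Nat.cast_nonneg _)]
          congr 1
          ring
  · intro ε A B K hε hA hK
    set q : ℝ := max 2 ((A + K) / ε) with hq
    have hq2 : 2 ≤ q := le_max_left _ _
    have hqε : A + K ≤ ε * q := by
      have h1 : (A + K) / ε ≤ q := le_max_right _ _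
      rw [div_le_iff₀ hε] at h1
      linarith
    obtain ⟨C, hC0, hC⟩ := moments q B hq2
    set C' : ℝ := max 1 (C * (1 + A ^ (q - 2))) with hC'
    have hC'1 : 1 ≤ C' := le_max_left _ _
    have hC'0 : 0 < C' := by linarith
    refine ⟨C', hC'0, ?_⟩
    intro N m J ρ b W hN hT hJ hρ hb
    have hN0 : (0 : ℝ) < N := by exact_mod_cast (by omega : 0 < N)
    have hN1 : (1 : ℝ) ≤ N := by exact_mod_cast hN
    have hρ1 := hρ.1
    have h1 := hC N m (A * Real.sqrt N) J ρ b hN (by positivity) hJ hρ hb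
    set V : ℝ := C' * (N : ℝ) ^ (1 / 2 + ε) with hV
    have hV0 : 0 < V := by positivity
    -- the bound at one point
    have h2 : ∀ t : ℝ, (Measure.pi fun _ : Fin m => ρ) {y | V < ‖D N (twist J b y) t‖} ≤
        ENNReal.ofReal ((N : ℝ) ^ (-(A + K))) := by
      intro t
      have h3 : (Measure.pi fun _ : Fin m => ρ) {y | V < ‖D N (twist J b y) t‖} ≤
          (Measure.pi fun _ : Fin m => ρ)
            {y | ENNReal.ofReal V ^ q ≤ ‖D N (twist J b y) t‖ₑ ^ q} := by
        apply measure_mono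
        intro y hy
        rw [Set.mem_ofPred_eq] at hy ⊢
        refine ENNReal.rpow_le_rpow ?_ (by linarith)
        rw [← ofReal_norm]
        exact ENNReal.ofReal_le_ofReal hy.le
      refine h3.trans ?_
      have h4 := meas_ge_le_lintegral_div (μ := Measure.pi fun _ : Fin m => ρ)
        ((meas hJ b t).enorm.pow_const q).aemeasurable (ε := ENNReal.ofReal V ^ q)
        (by
          have : 0 < ENNReal.ofReal V ^ q :=
            ENNReal.rpow_pos (ENNReal.ofReal_pos.2 hV0) ENNReal.ofReal_ne_top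
          exact this.ne')
        (ENNReal.rpow_ne_top_of_nonneg (by linarith) ENNReal.ofReal_ne_top)
      refine h4.trans ?_
      refine (ENNReal.div_le_div_right (h1 t) _).trans ?_
      rw [ENNReal.ofReal_rpow_of_nonneg hV0.le (by linarith),
        ← ENNReal.ofReal_div_of_pos (by positivity)]
      apply ENNReal.ofReal_le_ofReal
      rw [div_le_iff₀ (by positivity)]
      have e1 : (N : ℝ) * (A * Real.sqrt N) ^ (q - 2) = A ^ (q - 2) * (N : ℝ) ^ (q / 2) := by
        rw [Real.mul_rpow hA.le (Real.sqrt_nonneg _), Real.sqrt_eq_rpow,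
          ← Real.rpow_mul hN0.le]
        have e2 : (N : ℝ) ^ (q / 2) = (N : ℝ) * (N : ℝ) ^ (1 / 2 * (q - 2)) := by
          nth_rewrite 2 [← Real.rpow_one (N : ℝ)]
          rw [← Real.rpow_add hN0]
          congr 1
          ring
        rw [e2]
        ring
      have e3 : V ^ q = C' ^ q * ((N : ℝ) ^ (q / 2) * (N : ℝ) ^ (ε * q)) := by
        rw [hV, Real.mul_rpow hC'0.le (by positivity), ← Real.rpow_mul hN0.le,
          ← Real.rpow_add hN0]
        congr 2
        ring
      have e4 : C' ≤ C' ^ q := by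
        nth_rewrite 1 [← Real.rpow_one C']
        exact Real.rpow_le_rpow_of_exponent_le hC'1 (by linarith)
      have e5 : 1 ≤ (N : ℝ) ^ (-(A + K)) * (N : ℝ) ^ (ε * q) := by
        rw [← Real.rpow_add hN0]
        exact Real.one_le_rpow hN1 (by linarith)
      rw [e1, e3]
      calc C * ((N : ℝ) ^ (q / 2) + A ^ (q - 2) * (N : ℝ) ^ (q / 2))
          = C * (1 + A ^ (q - 2)) * (N : ℝ) ^ (q / 2) := by ring
        _ ≤ C' ^ q * (N : ℝ) ^ (q / 2) :=
            mul_le_mul_of_nonneg_right ((le_max_right _ _).trans e4) (by positivity)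
        _ = C' ^ q * (N : ℝ) ^ (q / 2) * 1 := by ring
        _ ≤ C' ^ q * (N : ℝ) ^ (q / 2) * ((N : ℝ) ^ (-(A + K)) * (N : ℝ) ^ (ε * q)) :=
            mul_le_mul_of_nonneg_left e5 (by positivity)
        _ = _ := by ring
    have h5 : {y : Fin m → ℝ | ∃ t ∈ W, V < ‖D N (twist J b y) t‖} ⊆
        ⋃ t ∈ W, {y : Fin m → ℝ | V < ‖D N (twist J b y) t‖} := by
      intro y hy
      obtain ⟨t, ht, hy⟩ := hy
      exact Set.mem_biUnion ht hy
    calc (Measure.pi fun _ : Fin m => ρ)
          {y : Fin m → ℝ | ∃ t ∈ W, V < ‖D N (twist J b y) t‖}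
        ≤ ∑ t ∈ W, (Measure.pi fun _ : Fin m => ρ)
          {y : Fin m → ℝ | V < ‖D N (twist J b y) t‖} :=
          (measure_mono h5).trans (measure_biUnion_finset_le _ _)
      _ ≤ ∑ _t ∈ W, ENNReal.ofReal ((N : ℝ) ^ (-(A + K))) :=
          Finset.sum_le_sum fun t _ => h2 t
      _ = ENNReal.ofReal (W.card * (N : ℝ) ^ (-(A + K))) := by
          rw [Finset.sum_const, nsmul_eq_mul,
            ← ENNReal.ofReal_natCast, ← ENNReal.ofReal_mul (Nat.cast_nonneg _)]
      _ ≤ ENNReal.ofReal ((N : ℝ) ^ (-K)) := by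
          apply ENNReal.ofReal_le_ofReal
          calc (W.card : ℝ) * (N : ℝ) ^ (-(A + K)) ≤ (N : ℝ) ^ A * (N : ℝ) ^ (-(A + K)) :=
                mul_le_mul_of_nonneg_right hT (by positivity)
            _ = (N : ℝ) ^ (-K) := by
                rw [← Real.rpow_add hN0]
                congr 1
                ring

end Pool.Agent.Results.MP_2a1f0e_nt.RandomTwists
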